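import Pool.Agent.H958.LR.Stm

/-!
# Project LR of helper958: the piece `S_FLE`
-/

set_option autoImplicit false

namespace Pool.Agent.H553.LR

open MeasureTheory ProbabilityTheory Set Filter Pool.Agent.H958.LR
open scoped ENNReal NNReal Nat Topology

/-! ### finite products of weights -/

section Weights

variable {κ : Type} [Fintype κ] [DecidableEq κ]

/-- weight of a configuration -/
noncomputable def wgt (p : κ → ℝ) (η : κ → Bool) : ℝ := ∏ i, if η i = true then p i else 1 - p i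

theorem wgt_nonneg {p : κ → ℝ} (hp : ∀ i, 0 ≤ p i ∧ p i ≤ 1) (η : κ → Bool) : 0 ≤ wgt p η := by
  refine Finset.prod_nonneg fun i _ => ?_
  split_ifs
  · exact (hp i).1
  · linarith [(hp i).2]

theorem wgt_sum (p : κ → ℝ) : ∑ η : κ → Bool, wgt p η = 1 := by
  have h := Finset.prod_univ_sum (κ := fun _ : κ => Bool) (t := fun _ : κ => (Finset.univ : Finset Bool))
    (f := fun i b => if b = true then p i else 1 - p i)
  rw [Fintype.piFinset_univ] at h
  unfold wgt
  rw [← h]
  refine Finset.prod_eq_one fun i _ => ?_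
  simp

/-- flip one coordinate -/
def flipAt (i0 : κ) (η : κ → Bool) : κ → Bool := Function.update η i0 (!η i0)

theorem flipAt_invol (i0 : κ) : Function.Involutive (flipAt i0) := by
  intro η
  funext i
  unfold flipAt
  by_cases h : i = i0
  · subst h; simp
  · simp [Function.update_of_ne h]

theorem wgt_split (p : κ → ℝ) (i0 : κ) (η : κ → Bool) :
    wgt p η = (if η i0 = true then p i0 else 1 - p i0) *
      ∏ i ∈ Finset.univ.erase i0, if η i = true then p i else 1 - p i := by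
  unfold wgt
  exact (Finset.mul_prod_erase Finset.univ (fun i => if η i = true then p i else 1 - p i)
    (Finset.mem_univ i0)).symm

theorem wgt_flip (p : κ → ℝ) (i0 : κ) (η : κ → Bool) (h : η i0 = true) :
    p i0 * wgt p (flipAt i0 η) = (1 - p i0) * wgt p η := by
  rw [wgt_split p i0 η, wgt_split p i0 (flipAt i0 η)]
  have h1 : flipAt i0 η i0 = false := by
    unfold flipAt
    rw [Function.update_self, h]
    rfl
  have h2 : (∏ i ∈ Finset.univ.erase i0, if flipAt i0 η i = true then p i else 1 - p i) =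
      ∏ i ∈ Finset.univ.erase i0, if η i = true then p i else 1 - p i := by
    refine Finset.prod_congr rfl fun i hi => ?_
    unfold flipAt
    rw [Function.update_of_ne (Finset.ne_of_mem_erase hi)]
  rw [h1, h2, h]
  simp only [if_true, Bool.false_eq_true, if_false]
  ring

/-- a coordinate is independent of a function which does not depend on it -/
theorem wgt_indep (p : κ → ℝ) (i0 : κ) (F : (κ → Bool) → ℝ) (hF : ∀ η, F (flipAt i0 η) = F η) :
    ∑ η : κ → Bool, wgt p η * (F η * if η i0 = true then 1 else 0) =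
      p i0 * ∑ η : κ → Bool, wgt p η * F η := by
  obtain ⟨A, hA⟩ : ∃ A, A = ∑ η : κ → Bool, wgt p η * (F η * if η i0 = true then 1 else 0) :=
    ⟨_, rfl⟩
  obtain ⟨B, hB⟩ : ∃ B, B = ∑ η : κ → Bool, wgt p η * (F η * if η i0 = true then 0 else 1) :=
    ⟨_, rfl⟩
  have hAB : ∑ η : κ → Bool, wgt p η * F η = A + B := by
    rw [hA, hB, ← Finset.sum_add_distrib]
    refine Finset.sum_congr rfl fun η _ => ?_
    split_ifs <;> ring
  have hB2 : B = ∑ η : κ → Bool, wgt p (flipAt i0 η) * (F η * if η i0 = true then 1 else 0) := by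
    rw [hB, ← Equiv.sum_comp ((flipAt_invol i0).toPerm (flipAt i0))]
    refine Finset.sum_congr rfl fun η _ => ?_
    have h1 : (flipAt_invol i0).toPerm (flipAt i0) η = flipAt i0 η := rfl
    rw [h1, hF]
    congr 2
    have h2 : flipAt i0 η i0 = !η i0 := by
      unfold flipAt
      rw [Function.update_self]
    rw [h2]
    cases η i0 <;> simp
  have hkey : p i0 * B = (1 - p i0) * A := by
    rw [hB2, hA, Finset.mul_sum, Finset.mul_sum]
    refine Finset.sum_congr rfl fun η _ => ?_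
    by_cases h : η i0 = true
    · have h5 := wgt_flip p i0 η h
      rw [← mul_assoc, h5]
      ring
    · rw [if_neg h]
      ring
  rw [hAB, ← hA]
  linarith

end Weights

section EP

variable {Λ : Type} [Fintype Λ] [DecidableEq Λ]

open Classical in
theorem EP_eq (n : ℕ) (p : Sym2 Λ ⊕ Λ → ℝ) (A : Win Λ → Prop) :
    EP n p A = ∑ η : (Sym2 Λ ⊕ Λ) × Fin n → Bool,
      wgt (fun i : (Sym2 Λ ⊕ Λ) × Fin n => p i.1) η * (if A (ext n η) then 1 else 0) := by
  unfold EP wgt
  rfl

theorem EP_nonneg {n : ℕ} {p : Sym2 Λ ⊕ Λ → ℝ} (hp : ∀ i, 0 ≤ p i ∧ p i ≤ 1) (A : Win Λ → Prop) :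
    0 ≤ EP n p A := by
  classical
  rw [EP_eq]
  refine Finset.sum_nonneg fun η _ => mul_nonneg (wgt_nonneg (fun i => hp i.1) η) ?_
  split_ifs <;> norm_num

theorem FI_nonneg {n : ℕ} {p : Sym2 Λ ⊕ Λ → ℝ} (hp : ∀ i, 0 ≤ p i ∧ p i ≤ 1) (S : ℕ → Set Λ)
    (o : Λ) (j : ℕ) (y : Λ) : 0 ≤ FI p n S o j y := EP_nonneg hp _

theorem EP_mono {n : ℕ} {p : Sym2 Λ ⊕ Λ → ℝ} (hp : ∀ i, 0 ≤ p i ∧ p i ≤ 1) {A B : Win Λ → Prop}
    (h : ∀ ω, A ω → B ω) : EP n p A ≤ EP n p B := by
  classical
  rw [EP_eq, EP_eq]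
  refine Finset.sum_le_sum fun η _ =>
    mul_le_mul_of_nonneg_left ?_ (wgt_nonneg (fun i => hp i.1) η)
  by_cases h1 : A (ext n η)
  · rw [if_pos h1, if_pos (h _ h1)]
  · rw [if_neg h1]
    split_ifs <;> norm_num

theorem EP_true (n : ℕ) (p : Sym2 Λ ⊕ Λ → ℝ) : EP n p (fun _ => True) = 1 := by
  classical
  rw [EP_eq]
  refine Eq.trans ?_ (wgt_sum (fun i : (Sym2 Λ ⊕ Λ) × Fin n => p i.1))
  refine Finset.sum_congr rfl fun η _ => ?_
  rw [if_pos trivial, mul_one]

theorem EP_false (n : ℕ) (p : Sym2 Λ ⊕ Λ → ℝ) {A : Win Λ → Prop} (h : ∀ ω, ¬ A ω) :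
    EP n p A = 0 := by
  classical
  rw [EP_eq]
  refine Finset.sum_eq_zero fun η _ => ?_
  rw [if_neg (h _), mul_zero]

/-- union bound -/
theorem EP_union {n : ℕ} {p : Sym2 Λ ⊕ Λ → ℝ} (hp : ∀ i, 0 ≤ p i ∧ p i ≤ 1) {A B : Win Λ → Prop}
    {D : Λ → Win Λ → Prop} (h : ∀ ω, A ω → B ω ∨ ∃ x, D x ω) :
    EP n p A ≤ EP n p B + ∑ x, EP n p (D x) := by
  classical
  simp only [EP_eq]
  rw [Finset.sum_comm, ← Finset.sum_add_distrib]
  refine Finset.sum_le_sum fun η _ => ?_
  rw [← Finset.mul_sum, ← mul_add]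
  refine mul_le_mul_of_nonneg_left ?_ (wgt_nonneg (fun i => hp i.1) η)
  have hnn : ∀ x, (0 : ℝ) ≤ if D x (ext n η) then 1 else 0 := fun x => by split_ifs <;> norm_num
  by_cases h1 : A (ext n η)
  · rw [if_pos h1]
    rcases h _ h1 with h2 | ⟨x, h2⟩
    · rw [if_pos h2]
      have := Finset.sum_nonneg fun x (_ : x ∈ Finset.univ) => hnn x
      linarith
    · have h3 := Finset.single_le_sum (f := fun x => if D x (ext n η) then (1 : ℝ) else 0)
        (fun x _ => hnn x) (Finset.mem_univ x)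
      simp only [if_pos h2] at h3
      have h4 : (0 : ℝ) ≤ if B (ext n η) then 1 else 0 := by split_ifs <;> norm_num
      linarith
  · rw [if_neg h1]
    have := Finset.sum_nonneg fun x (_ : x ∈ Finset.univ) => hnn x
    have h4 : (0 : ℝ) ≤ if B (ext n η) then 1 else 0 := by split_ifs <;> norm_num
    linarith

/-- restricted connections depend on the earlier windows only -/
theorem Inner_congr {ω ω' : Win Λ} (S : ℕ → Set Λ) (o : Λ) :
    ∀ (j : ℕ), (∀ i : (Sym2 Λ ⊕ Λ) × ℕ, i.2 < j → ω i = ω' i) → ∀ x, Inner ω S o j x →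
      Inner ω' S o j x
  | 0, _, _, h => h
  | j + 1, hω, x, ⟨hx, y, h1, h2, h3⟩ => by
    refine ⟨hx, y, Inner_congr S o j (fun i hi => hω i (by omega)) y h1, h2, ?_⟩
    rcases h3 with ⟨a, b⟩ | ⟨a, b⟩
    · exact Or.inl ⟨a, by rw [← hω _ (Nat.lt_succ_self j)]; exact b⟩
    · exact Or.inr ⟨a, by rw [← hω _ (Nat.lt_succ_self j)]; exact b⟩

/-- independence of different windows -/
theorem EP_indep {n : ℕ} (p : Sym2 Λ ⊕ Λ → ℝ) (S : ℕ → Set Λ) (o : Λ) {j : ℕ} (hj : j < n) (x : Λ)
    (e : Sym2 Λ ⊕ Λ) :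
    EP n p (fun ω => Inner ω S o j x ∧ ω (e, j) = true) = FI p n S o j x * p e := by
  classical
  unfold FI
  rw [EP_eq, EP_eq, mul_comm]
  have h := wgt_indep (fun i : (Sym2 Λ ⊕ Λ) × Fin n => p i.1) (e, ⟨j, hj⟩)
    (fun η => if Inner (ext n η) S o j x then 1 else 0) ?_
  · rw [← h]
    refine Finset.sum_congr rfl fun η _ => ?_
    congr 1
    have h1 : ext n η (e, j) = η (e, ⟨j, hj⟩) := by
      unfold Pool.Agent.H958.LR.ext
      rw [dif_pos hj]
    rw [h1]
    by_cases a : Inner (ext n η) S o j x <;> by_cases b : η (e, ⟨j, hj⟩) = true <;> simp [a, b]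
  · intro η
    have h2 : ∀ i : (Sym2 Λ ⊕ Λ) × ℕ, i.2 < j →
        ext n (flipAt (e, ⟨j, hj⟩) η) i = ext n η i := by
      intro i hi
      unfold Pool.Agent.H958.LR.ext
      have hin : i.2 < n := hi.trans hj
      rw [dif_pos hin, dif_pos hin]
      unfold flipAt
      rw [Function.update_of_ne]
      intro hc
      have := congrArg (fun q => (q.2 : ℕ)) hc
      simp only at this
      omega
    have h3 : Inner (ext n (flipAt (e, ⟨j, hj⟩) η)) S o j x ↔ Inner (ext n η) S o j x :=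
      ⟨Inner_congr S o j h2 x, Inner_congr S o j (fun i hi => (h2 i hi).symm) x⟩
    simp only [h3]

end EP

theorem s_fle : S_FLE := by
  intro V _ K u Λ o n p S hp hK j
  induction j with
  | zero =>
    intro _ y
    by_cases h : y = o
    · have hw : wb u K (o : V) 0 (y : V) = 1 := by
        unfold wb
        rw [if_pos (by rw [h])]
      rw [hw]
      refine ENNReal.ofReal_le_one.2 ?_
      rw [← EP_true n p]
      exact EP_mono hp fun _ _ => trivial
    · have h0 : FI p n S o 0 y = 0 := EP_false n p fun ω hω => h hω.1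
      rw [h0, ENNReal.ofReal_zero]
      exact zero_le
  | succ j ih =>
    intro hj y
    have ihj := ih (by omega)
    have h1 : FI p n S o (j + 1) y ≤ FI p n S o j y +
        ∑ x : Λ, EP n p (fun ω => x ≠ y ∧ Inner ω S o j x ∧ ω (Sum.inl s(x, y), j) = true) := by
      refine EP_union hp ?_
      rintro ω ⟨-, x, h1, -, h2⟩
      rcases h2 with ⟨rfl, -⟩ | ⟨h2, h3⟩
      · exact Or.inl h1
      · exact Or.inr ⟨x, h2, h1, h3⟩
    have h2 : ∀ x : Λ,
        ENNReal.ofReal (EP n p (fun ω => x ≠ y ∧ Inner ω S o j x ∧ ω (Sum.inl s(x, y), j) = true)) ≤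
          wb u K o j x * (u * K x y) := by
      intro x
      by_cases hxy : x = y
      · rw [EP_false n p fun ω hω => hω.1 hxy, ENNReal.ofReal_zero]
        exact zero_le
      · have h3 := EP_mono (n := n) hp
          (A := fun ω => x ≠ y ∧ Inner ω S o j x ∧ ω (Sum.inl s(x, y), j) = true)
          (B := fun ω => Inner ω S o j x ∧ ω (Sum.inl s(x, y), j) = true) fun ω hω => hω.2
        rw [EP_indep p S o (by omega : j < n) x (Sum.inl s(x, y))] at h3
        refine (ENNReal.ofReal_le_ofReal h3).trans ?_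
        rw [ENNReal.ofReal_mul (FI_nonneg hp S o j x)]
        exact mul_le_mul' (ihj x) (hK x y hxy)
    calc ENNReal.ofReal (FI p n S o (j + 1) y)
        ≤ ENNReal.ofReal (FI p n S o j y + ∑ x : Λ,
            EP n p (fun ω => x ≠ y ∧ Inner ω S o j x ∧ ω (Sum.inl s(x, y), j) = true)) :=
          ENNReal.ofReal_le_ofReal h1
      _ = ENNReal.ofReal (FI p n S o j y) + ∑ x : Λ, ENNReal.ofReal
            (EP n p (fun ω => x ≠ y ∧ Inner ω S o j x ∧ ω (Sum.inl s(x, y), j) = true)) := by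
          rw [ENNReal.ofReal_add (FI_nonneg hp S o j y) (Finset.sum_nonneg fun x _ => EP_nonneg hp _),
            ENNReal.ofReal_sum_of_nonneg fun x _ => EP_nonneg hp _]
      _ ≤ wb u K o j y + ∑ x : Λ, wb u K o j x * (u * K x y) :=
          add_le_add (ihj y) (Finset.sum_le_sum fun x _ => h2 x)
      _ ≤ wb u K o j y + ∑' x : V, wb u K o j x * (u * K x y) := by
          refine add_le_add le_rfl ?_
          rw [Finset.sum_coe_sort Λ (fun x : V => wb u K o j x * (u * K x y))]
          exact ENNReal.sum_le_tsum Λ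

end Pool.Agent.H553.LR
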